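import Pool.Agent.Lib.Helper6.RudinShapiro.Main

set_option autoImplicit false

/-!
# Monochromatic arithmetic progressions in the Rudin-Shapiro sequence

We prove `A₁₁(d) ≤ 2 ^ (k - 1)` for all `k ≥ 5` and `1 ≤ d ≤ 2 ^ k - 2`.

Idea.  `A₁₁(2 d) = A₁₁(d)` reduces the problem to odd `d`.  Let `D = 2 ^ (k - 1) < d < 2 ^ k - 1`.  Among
`D + 1` terms of a progression of odd difference `d` all residues modulo `D` occur.  For suitable
residues `s` the six numbers `D q + s + t d` (`0 ≤ t ≤ 5`) never have the same colour, whatever `q` is.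
Reading `s` and `d` digit by digit, this becomes a statement about a finite automaton with 94
classes times 32 patterns; a table of 54 sets of states shows that for `k ≥ 9` there are always two
such `s` that are congruent modulo 4 but not modulo 8, and at least one of the two windows lies in the
progression.  The cases `5 ≤ k ≤ 8` and the differences `2 ^ k - 1` (for which `A₁₁ ≤ 2 ^ k` is
enough) are treated in the same way with explicit residues.
-/

namespace Pool.Agent.Results.MP_c755aa_co.RudinShapiroBound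

open Pool.Agent.Lib.Helper6.RudinShapiro

/-- `e₁₁(n)`: the number of (possibly overlapping) occurrences of the block `11` in the binary
expansion of `n`, i.e. the number of positions `i` such that the binary digits of `n` at the places
`i` and `i + 1` are both `1`. -/
def e11 (n : ℕ) : ℕ :=
  ((Finset.range n).filter fun i => n.testBit i = true ∧ n.testBit (i + 1) = true).card

/-- `A₁₁(n, d)`: the infimum of all `l ≥ 1` for which `e₁₁(n + l d)` and `e₁₁(n)` have different
parities. -/
noncomputable def A11at (n d : ℕ) : ℕ∞ :=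
  ⨅ (l : ℕ) (_ : 1 ≤ l ∧ ¬ e11 (n + l * d) ≡ e11 n [MOD 2]), (l : ℕ∞)

/-- `A₁₁(d)`: the supremum of `A₁₁(n, d)` over all `n`, the largest number of terms of a
monochromatic arithmetic progression of difference `d`. -/
noncomputable def A11 (d : ℕ) : ℕ∞ := ⨆ n : ℕ, A11at n d

/-- The colouring. -/
def col (n : ℕ) : Bool := decide (e11 n % 2 = 1)

theorem e11_eq (n N : ℕ) (hN : n ≤ N) : e11 n =
    ((Finset.range N).filter fun i => n.testBit i = true ∧ n.testBit (i + 1) = true).card := by
  unfold e11
  congr 1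
  ext i
  simp only [Finset.mem_filter, Finset.mem_range]
  constructor
  · rintro ⟨h1, h2⟩
    exact ⟨by omega, h2⟩
  · rintro ⟨h1, h2⟩
    refine ⟨?_, h2⟩
    by_contra hcon
    have : n < 2 ^ i := lt_of_lt_of_le (Nat.lt_two_pow_self (n := n))
      (Nat.pow_le_pow_right (by norm_num) (by omega))
    rw [Nat.testBit_lt_two_pow this] at h2
    exact absurd h2.1 (by simp)

theorem e11_step (m b : ℕ) (hb : b < 2) :
    e11 (2 * m + b) = e11 m + (if b = 1 ∧ m.testBit 0 = true then 1 else 0) := by
  rw [e11_eq (2 * m + b) (2 * m + b + 1) (by omega), e11_eq m (2 * m + b) (by omega)]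
  rw [Finset.range_eq_Ico, Finset.card_filter, Finset.card_filter,
    Finset.sum_eq_sum_Ico_succ_bot (by omega : 0 < 2 * m + b + 1)]
  have h0 : ((2 * m + b).testBit 0 = true ∧ (2 * m + b).testBit (0 + 1) = true) ↔
      (b = 1 ∧ m.testBit 0 = true) := by
    rw [testBit_two_mul_add_zero _ _ hb, testBit_two_mul_add_succ _ _ hb]
    simp
  rw [add_comm]
  congr 1
  · rw [Finset.sum_Ico_eq_sum_range]
    apply Finset.sum_congr
    · congr 1
    · intro i _
      rw [show 0 + 1 + i = i + 1 by ring, testBit_two_mul_add_succ _ _ hb,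
        testBit_two_mul_add_succ _ _ hb]
  · simp only [h0]

theorem isRS_col : IsRS col where
  zero := by
    unfold col e11
    simp
  even := by
    intro n
    have := e11_step n 0 (by norm_num)
    unfold col
    simp only [add_zero, zero_ne_one, false_and, if_false] at this
    rw [this]
  odd := by
    intro n
    have := e11_step n 1 (by norm_num)
    unfold col
    rw [this]
    cases h : n.testBit 0
    · simp
    · simp only [true_and, if_true]
      rcases Nat.mod_two_eq_zero_or_one (e11 n) with h2 | h2 <;> simp [Nat.add_mod, h2]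

/-- For all `k ≥ 5` and `1 ≤ d ≤ 2 ^ k - 2` we have `A₁₁(d) ≤ 2 ^ (k - 1)`. -/
theorem result : ∀ k : ℕ, 5 ≤ k → ∀ d : ℕ, 1 ≤ d → d ≤ 2 ^ k - 2 →
    A11 d ≤ ((2 ^ (k - 1) : ℕ) : ℕ∞) := by
  intro k hk d hd1 hd2
  apply iSup_le
  intro n
  obtain ⟨l, h1, h2, h3⟩ := good_all isRS_col hk d hd1 hd2 n
  have hl : 1 ≤ l ∧ ¬ e11 (n + l * d) ≡ e11 n [MOD 2] := by
    refine ⟨h1, ?_⟩
    intro hcon
    apply h3
    unfold col
    rw [show e11 (n + l * d) % 2 = e11 n % 2 from hcon]
  unfold A11at
  calc (⨅ (l : ℕ) (_ : 1 ≤ l ∧ ¬ e11 (n + l * d) ≡ e11 n [MOD 2]), (l : ℕ∞)) ≤ (l : ℕ∞) :=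
        iInf₂_le l hl
    _ ≤ ((2 ^ (k - 1) : ℕ) : ℕ∞) := by exact_mod_cast h2

end Pool.Agent.Results.MP_c755aa_co.RudinShapiroBound
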